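import Pool.Agent.Lib.MP_41050a_ag.DJ.Brg1
import Pool.Agent.Lib.MP_41050a_ag.NK.Main

/-! The anticanonical degree on a hypersurface; necks are lines. -/

namespace Pool.Agent.Lib.MP_41050a_ag.DJ

open Polynomial NK

set_option linter.unusedSectionVars false

noncomputable section

variable {k : Type} [Field k] [IsAlgClosed k] [CharZero k] {n d e : ℕ} {f : Pk k (n + 1)}
  {Λ : Type} [Field Λ] [Algebra k Λ] [IsAlgClosed Λ] {F : V Λ[X] (n + 1)}

theorem brg_grad (hf : f.IsHomogeneous d) (ns : NS f) (hF : IsMap (Ideal.span {f}) e F) :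
    Bp ((d - 1) * e) fun a => MvPolynomial.aeval F (MvPolynomial.pderiv a f) := by
  refine ⟨fun a => (coeff_aev hf.pderiv hF.deg).1, fun p => ?_⟩
  obtain ⟨i, hi⟩ := hF.bpf p
  obtain ⟨a, ha⟩ := ns.ne (x := ev e p F) hi
  refine ⟨a, ?_⟩
  cases p with
  | none => exact fun h => ha ((coeff_aev hf.pderiv hF.deg).2.symm.trans h)
  | some b => exact fun h => ha ((eval_aev F b _).symm.trans h)

/-- The cofactors. -/
def cof {R : Type} [CommRing R] (G : Fin (n + 1) → V R (n + 1)) (a : Fin (n + 1 + 1)) : R :=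
  mn (n := n + 1) (Fin.cons (Pi.single a 1) G) id

theorem cof_rel {R : Type} [CommRing R] {G : Fin (n + 1) → V R (n + 1)} {φ : V R (n + 1)}
    (h : ∀ j, ∑ i, φ i * G j i = 0) (a b : Fin (n + 1 + 1)) : cof G b * φ a = φ b * cof G a := by
  let M : Matrix (Fin (n + 1 + 1)) (Fin (n + 1 + 1)) R := Matrix.of (Fin.cons (Pi.single b 1) G)
  have h1 : M.mulVec φ = Pi.single 0 (φ b) := by
    funext j
    refine Fin.cases ?_ (fun j => ?_) j
    · simp [M, Matrix.mulVec]
    · simpa [M, Matrix.mulVec, dotProduct, mul_comm] using h j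
  have h2 := congrFun (Matrix.mulVec_mulVec φ M.adjugate M) a
  rw [Matrix.adjugate_mul, h1, Matrix.mulVec_single, Matrix.smul_mulVec, Matrix.one_mulVec] at h2
  have h3 : M.adjugate a 0 = cof G a := by
    rw [Matrix.adjugate_apply]
    refine congrArg Matrix.det (Matrix.ext fun j l => ?_)
    refine Fin.cases ?_ (fun j => ?_) j
    · simp
    · simp [M]
  rw [← h3, show cof G b = M.det from rfl]
  simpa [mul_comm] using h2.symm

theorem cof_ne {G : Fin (n + 1) → V Λ (n + 1)} (h : LinearIndependent Λ G) :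
    ∃ a, cof G a ≠ 0 := by
  obtain ⟨a, ha⟩ : ∃ a, (Pi.single a 1 : V Λ (n + 1)) ∉ Submodule.span Λ (Set.range G) := by
    by_contra hc
    simp only [not_exists, not_not] at hc
    have h1 : Submodule.span Λ (Set.range G) = ⊤ := by
      rw [eq_top_iff, ← (Pi.basisFun Λ (Fin (n + 1 + 1))).span_eq, Submodule.span_le]
      rintro _ ⟨a, rfl⟩
      simpa using hc a
    have h2 := finrank_span_eq_card h
    rw [h1, finrank_top, Module.finrank_fin_fun, Fintype.card_fin] at h2
    omega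
  exact ⟨a, ((Matrix.isUnit_iff_isUnit_det _).1
    (Matrix.linearIndependent_rows_iff_isUnit.1 (h.finCons ha))).ne_zero⟩

theorem cof_bp {I : Ideal (Pk k (n + 1))} {δ : Fin (n + 1) → ℕ} {G : Fin (n + 1) → V Λ[X] (n + 1)}
    (h : Frame I n F δ G) : Bp (∑ j, δ j) (cof G) := by
  have h1 := fun a => mn_val (n := n + 1) (G := Fin.cons (Pi.single a 1) G) (δ := Fin.cons 0 δ)
    (fun j i => by
      refine Fin.cases ?_ (fun j => h.deg j i) j
      simp only [Fin.cons_zero, Pi.single_apply]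
      split_ifs <;> simp) id
  simp only [Fin.sum_cons, zero_add] at h1
  refine ⟨fun a => (h1 a).1, fun p => ?_⟩
  obtain ⟨a, ha⟩ := cof_ne (h.ind p)
  refine ⟨a, fun h0 => ha ?_⟩
  rw [← h0, cof, cof, (h1 a).2 p]
  refine congrArg (mn · id) (funext fun j => ?_)
  refine Fin.cases (funext fun i => ?_) (fun j => rfl) j
  simp only [Fin.cons_zero, Pi.single_apply, ev]
  split_ifs <;> cases p <;> simp [val]

theorem brg_antiK (hf : f.IsHomogeneous d) (hd : d ≠ 0) (ns : NS f)
    (hF : IsMap (Ideal.span {f}) e F) {c : ℤ} (h : AntiK (Ideal.span {f}) n e F c) :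
    c = e * (n + 2 - d) := by
  obtain ⟨δ, G, hG, rfl⟩ := h
  have h1 := cof_bp hG
  have h2 := brg_grad hf ns hF
  have h3 := cof_rel (G := G) fun j => (brg_tg hF.on).1 (hG.tg j)
  obtain ⟨b, hb⟩ := h1.bpf none
  have hb' : cof G b ≠ 0 := fun h0 => hb (by simp [h0, val])
  obtain ⟨a, ha⟩ := h2.bpf none
  have ha' : MvPolynomial.aeval F (MvPolynomial.pderiv b f) ≠ 0 := fun h0 => by
    have := h3 a b
    rw [h0, zero_mul, mul_eq_zero] at this
    exact ha (by simp [this.resolve_left hb', val])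
  have h4 := congrArg (Nat.cast : ℕ → ℤ) (h1.uniq h2 ha' hb' fun a => h3 a b)
  obtain ⟨m, rfl⟩ := Nat.exists_eq_succ_of_ne_zero hd
  simp only [Nat.succ_sub_one, Nat.cast_mul, Nat.cast_sum] at h4
  rw [Finset.sum_sub_distrib, h4]
  simp
  ring

theorem rat_par {N : ℕ} {x y : V Λ N} (h : Par x y) : rat x = rat y := by
  obtain ⟨c, hc, rfl⟩ := h
  ext a
  simp only [rat, Set.mem_ofPred_eq, Pi.smul_apply, smul_eq_mul, mul_div_mul_left _ _ hc]

/-- A short chain is a line. -/
theorem brg_chain (hf : f.IsHomogeneous d) (hd : d ≠ 0) (ns : NS f) (hι : d ≤ n + 1)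
    {x y : V Λ (n + 1)} {ε : ℤ} (h : Chain (Ideal.span {f}) n x y ε) (h0 : 0 < ε)
    (h1 : ε < 2 * (n + 2 - d)) : ε = n + 2 - d ∧ ∃ p q : V Λ (n + 1), p ≠ 0 ∧ q ≠ 0 ∧
      MvPolynomial.aeval (ln p q) f = 0 ∧ rat x ∪ rat y = rat p ∪ rat q := by
  have low : Low (Ideal.span {f}) n Λ (n + 2 - d) := fun e F c hc => by
    rw [brg_antiK hf hd ns hc.map hc.deg]
    have := hc.pos
    exact le_mul_of_one_le_left (by omega) (by omega)
  have low1 : Low (Ideal.span {f}) n Λ 1 := fun e F c hc => le_trans (by omega) (low e F c hc)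
  cases h with
  | nil _ => omega
  | @cons _ _ e F c ε hc hp h' =>
    have a1 := low e F c hc
    have a2 := h'.nonneg low1
    have a3 := brg_antiK hf hd ns hc.map hc.deg
    have a4 : e = 1 := by
      have := hc.pos
      by_contra hne
      have : (2 : ℤ) * (n + 2 - d) ≤ e * (n + 2 - d) :=
        mul_le_mul_of_nonneg_right (by omega) (by omega)
      omega
    subst a4
    cases h' with
    | nil hq =>
      refine ⟨by omega, _, _, chn_ne hc.map (some 0), chn_ne hc.map none, ?_, ?_⟩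
      · have e : ln (ev 1 (some 0) F) (ev 1 none F) = F := funext fun i => by
          rw [eq_X_add_C_of_natDegree_le_one (hc.map.deg i), coeff_zero_eq_eval_zero]
          exact (add_comm _ _).trans (congrArg (· + _) (mul_comm _ _))
        rw [e]
        exact brg_on.1 hc.map.on
      · rw [rat_par hp, ← rat_par hq, Set.union_comm]
        rfl
    | cons hc' _ h'' =>
      have b1 := low _ _ _ hc'
      have b2 := h''.nonneg low1
      omega

/-- The bridge. -/
theorem bridge {N : ℕ} {f : Pk k N} (hf : f.IsHomogeneous d) (h2 : 2 ≤ d) (h3 : 3 * d ≤ 2 * N + 3)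
    (ns : NS f)
    (nn : ∀ (Λ : Type) [Field Λ] [Algebra k Λ] (p q : V Λ N), p ≠ 0 → q ≠ 0 →
      MvPolynomial.aeval (ln p q) f = 0 → ¬Ind k (rat p ∪ rat q) (2 * N - d))
    {P : Ideal (MvPolynomial (Fin (N + 1) × Fin (e + 1)) k)}
    (hP : P ∈ (eqs (Ideal.span {f}) e).minimalPrimes) (hg : GenFree (Ideal.span {f}) e P)
    (he : N + 1 ≤ e * (N + 1 - d)) : BreaksN (Ideal.span {f}) e P := by
  obtain ⟨n, rfl⟩ : ∃ n, N = n + 1 := ⟨N - 1, by omega⟩
  have hd : d ≠ 0 := by omega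
  have hι : d ≤ n + 1 := by omega
  have low : ∀ (e : ℕ) (F : V k[X] (n + 1)) (c : ℤ), Curve (Ideal.span {f}) n e F c →
      (n + 2 - d : ℤ) ≤ c := fun e F c hc => by
    rw [brg_antiK hf hd ns hc.map hc.deg]
    have := hc.pos
    exact le_mul_of_one_le_left (by omega) (by omega)
  have gk : GenK (Ideal.span {f}) n e P (n + 2) := by
    obtain ⟨h, hh, h1⟩ := hg
    refine ⟨h, hh, fun a ha hb => ⟨(h1 a ha hb).1, (h1 a ha hb).2, ?_⟩⟩
    obtain ⟨δ, G, hG⟩ := exists_frame (brg_dim ns) (h1 a ha hb).1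
    refine ⟨_, ?_, δ, G, hG, rfl⟩
    rw [brg_antiK hf hd ns (h1 a ha hb).1 ⟨δ, G, hG, rfl⟩]
    have h4 := Int.ofNat_le.2 he
    rw [Nat.cast_mul, Nat.cast_sub (by omega)] at h4
    push_cast at h4
    linarith
  rcases NK.main (brg_var hf hd (by omega) ns) (brg_dim ns) (by omega) low hP gk with
    h | ⟨ε, e', F, c, a1, a2, ⟨Λ, _, _, _, x, y, a3, a4⟩, a5, -⟩
  · exact h
  have a6 := low _ _ _ a5
  obtain ⟨b1, p, q, hp, hq, b2, b3⟩ := brg_chain hf hd ns hι a3 (by omega) (by omega)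
  refine absurd ?_ (nn Λ p q hp hq b2)
  rw [← b3, show 2 * (n + 1) - d = n + ε by omega]
  exact a4

end

end Pool.Agent.Lib.MP_41050a_ag.DJ
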