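import Pool.Agent.Lib.MP_41050a_ag.DJ.B

/-! The Gauss map of the swept locus has low degree on a line. -/

namespace Pool.Agent.Lib.MP_41050a_ag.DJ

open Polynomial NK Module Matrix

set_option linter.unusedSectionVars false

noncomputable section

variable {k : Type} [Field k] [IsAlgClosed k] [CharZero k] {N d : ℕ}
  {K : Type} [Field K] [Algebra k K]

theorem bez {p q : K[X]} (hp : p.coeff 0 ≠ 0) : ∃ g r s a b : K[X], g.coeff 0 = 1 ∧ g * r = p ∧
    g * s = q ∧ g = a * p + b * q := by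
  classical
  obtain ⟨r, hr⟩ := EuclideanDomain.gcd_dvd_left p q
  obtain ⟨s, hs⟩ := EuclideanDomain.gcd_dvd_right p q
  have hb := EuclideanDomain.gcd_eq_gcd_ab p q
  generalize EuclideanDomain.gcd p q = g at hr hs hb
  have h0 : g.coeff 0 ≠ 0 := fun h => hp (by rw [hr, mul_coeff_zero, h, zero_mul])
  have h1 : C (g.coeff 0)⁻¹ * C (g.coeff 0) = 1 := by rw [← C_mul, inv_mul_cancel₀ h0, C_1]
  refine ⟨C (g.coeff 0)⁻¹ * g, C (g.coeff 0) * r, C (g.coeff 0) * s,
    C (g.coeff 0)⁻¹ * EuclideanDomain.gcdA p q, C (g.coeff 0)⁻¹ * EuclideanDomain.gcdB p q,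
    by rw [coeff_C_mul, inv_mul_cancel₀ h0], ?_, ?_, ?_⟩
  · rw [mul_mul_mul_comm, h1, one_mul, ← hr]
  · rw [mul_mul_mul_comm, h1, one_mul, ← hs]
  · linear_combination C (g.coeff 0)⁻¹ * hb

/-- Cramer's rule for a family of tangent fields completed by coordinate vectors. -/
theorem low {I : Ideal (Pk k N)} {x : V K[X] N} {τ : Type} [Fintype τ] {ρ : ℕ}
    (hc : Fintype.card τ + ρ = N + 1) (J : Fin ρ → Fin (N + 1)) (W : τ → V K[X] N) (δ : τ → ℕ)
    (hW : ∀ s, Tg I x (W s)) (hδ : ∀ s i, (W s i).natDegree ≤ δ s)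
    (hi : LinearIndependent K (Sum.elim (fun s i => (W s i).eval 0)
      (fun m => Pi.single (J m) (1 : K)) : τ ⊕ Fin ρ → V K N)) :
    ∃ (Q₀ : K[X]) (Q : Fin ρ → Fin (N + 1) → K[X]), Q₀ ≠ 0 ∧
      (∀ m a, (Q m a).natDegree ≤ ∑ s, δ s) ∧ ∀ Φ ∈ I, ∀ a,
        Q₀ * MvPolynomial.aeval x (MvPolynomial.pderiv a Φ) =
          ∑ m, Q m a * MvPolynomial.aeval x (MvPolynomial.pderiv (J m) Φ) := by
  classical
  let e : τ ⊕ Fin ρ ≃ Fin (N + 1) := Fintype.equivFinOfCardEq (by simpa using hc)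
  let U : τ ⊕ Fin ρ → V K[X] N := Sum.elim W fun m => Pi.single (J m) 1
  let B : Matrix (τ ⊕ Fin ρ) (τ ⊕ Fin ρ) K[X] := Matrix.of fun s s' => U s' (e s)
  have h1 : ∀ (j i : Fin (N + 1)), ((Pi.single j 1 : V K[X] N) i).natDegree ≤ 0 := fun j i => by
    rw [Pi.single_apply]
    split_ifs <;> simp
  refine ⟨B.det, fun m a => B.cramer (fun s => (Pi.single a 1 : V K[X] N) (e s)) (.inr m),
    fun h0 => ?_, fun m a => ?_, fun Φ hΦ a => ?_⟩
  · have h2 := (evalRingHom (0 : K)).map_det B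
    rw [h0, map_zero] at h2
    refine ((Matrix.isUnit_iff_isUnit_det _).1
      (Matrix.linearIndependent_cols_iff_isUnit.1 ?_)).ne_zero h2.symm
    have h3 := hi.map' (LinearEquiv.funCongrLeft K K e).toLinearMap (LinearEquiv.ker _)
    refine (congrArg (fun t : τ ⊕ Fin ρ → τ ⊕ Fin ρ → K => LinearIndependent K t) ?_).mpr h3
    funext s' s
    rcases s' with s' | m
    · rfl
    · simp [B, U, Pi.single_apply, apply_ite (eval (0 : K))]
  · beta_reduce
    rw [Matrix.cramer_apply]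
    refine (det_deg _ (Sum.elim δ 0) fun s s' => ?_).trans (by simp)
    rw [Matrix.updateCol_apply]
    split_ifs with h
    · rw [h]
      exact h1 _ _
    · rcases s' with s' | m
      · exact hδ _ _
      · exact h1 _ _
  · set z := B.cramer fun s => (Pi.single a 1 : V K[X] N) (e s)
    have h2 : ∀ i, ∑ s', U s' i * z s' = B.det * (Pi.single a 1 : V K[X] N) i := fun i => by
      have := congrFun (B.mulVec_cramer fun s => (Pi.single a 1 : V K[X] N) (e s)) (e.symm i)
      simpa only [Matrix.mulVec, dotProduct, B, Matrix.of_apply, Equiv.apply_symm_apply,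
        Pi.smul_apply, smul_eq_mul] using this
    have h3 : ∀ j (c : K[X]), ∑ i, MvPolynomial.aeval x (MvPolynomial.pderiv i Φ) *
        (c * (Pi.single j 1 : V K[X] N) i) =
          c * MvPolynomial.aeval x (MvPolynomial.pderiv j Φ) := fun j c => by
      simp [Pi.single_apply, mul_comm]
    rw [← h3]
    simp only [← h2, Finset.mul_sum]
    rw [Finset.sum_comm, Fintype.sum_sum_type, Finset.sum_eq_zero fun s _ => ?_, zero_add]
    · refine Finset.sum_congr rfl fun m _ => (Finset.sum_congr rfl fun i _ => ?_).trans (h3 _ _)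
      rw [mul_comm (z _)]
      rfl
    · simp only [← mul_assoc, ← Finset.sum_mul]
      exact mul_eq_zero_of_left (hW s Φ hΦ) _

/-- At a generic point every tangent vector comes from a derivation. -/
theorem exists_der {y w : V K N}
    (hw : Tg (RingHom.ker (MvPolynomial.aeval y : Pk k N →ₐ[k] K)) y w) :
    ∃ D : Dr k K, ∀ i, D (y i) = w i := by
  let l : Pk k N →ₗ[k] K := ∑ i, LinearMap.mulRight k (w i) ∘ₗ
    (MvPolynomial.aeval y).toLinearMap ∘ₗ (MvPolynomial.pderiv i).toLinearMap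
  have hl : ∀ Φ, l Φ = ∑ i, MvPolynomial.aeval y (MvPolynomial.pderiv i Φ) * w i := fun Φ => by
    simp [l]
  let I := RingHom.ker (MvPolynomial.aeval y : Pk k N →ₐ[k] K)
  let l' : (Pk k N ⧸ I) →ₗ[k] K :=
    ((I.restrictScalars k).liftQ l fun Φ hΦ => (hl Φ).trans (hw Φ hΦ)) ∘ₗ
      (Submodule.Quotient.restrictScalarsEquiv k I).symm.toLinearMap
  have hl' : ∀ Φ, l' (Ideal.Quotient.mk I Φ) = l Φ := fun Φ => rfl
  obtain ⟨D, hD⟩ := exists_der_ext (Ideal.kerLiftAlg (MvPolynomial.aeval y : Pk k N →ₐ[k] K))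
    (Ideal.kerLiftAlg_injective _) l' fun a b => by
      obtain ⟨a, rfl⟩ := Ideal.Quotient.mk_surjective a
      obtain ⟨b, rfl⟩ := Ideal.Quotient.mk_surjective b
      rw [← map_mul, hl', hl', hl', hl, hl, hl, Ideal.kerLiftAlg_mk, Ideal.kerLiftAlg_mk,
        Finset.mul_sum, Finset.mul_sum, ← Finset.sum_add_distrib]
      refine Finset.sum_congr rfl fun i _ => ?_
      simp only [Derivation.leibniz, smul_eq_mul, map_add, map_mul]
      ring
  refine ⟨D, fun i => ?_⟩
  have := hD (Ideal.Quotient.mk I (MvPolynomial.X i))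
  rw [Ideal.kerLiftAlg_mk, MvPolynomial.aeval_X, hl', hl] at this
  rw [this]
  simp [MvPolynomial.pderiv_X, Pi.single_apply, apply_ite (MvPolynomial.aeval y)]

theorem dP_ln (D : Dr k K) (y v : V K N) (i : Fin (N + 1)) :
    dP D (ln y v i) = ln (fun i => D (y i)) (fun i => D (v i)) i := by
  ext j
  rw [dP_coeff]
  rcases j with _ | _ | j <;> simp [ln, coeff_X, coeff_C]

theorem ln_deg (y v : V K N) (i : Fin (N + 1)) : (ln y v i).natDegree ≤ 1 := by
  unfold ln
  compute_degree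

/-- From the low degree relation to the bound on the cone. -/
theorem small {f : Pk k N} (hf : f.IsHomogeneous d) (ns : NS f) {y v : V K N}
    {i₀ : Fin (N + 1)} (hy : y i₀ ≠ 0) (hv : v i₀ = 0) {ρ α : ℕ} (hα : α + 1 < d)
    {J : Fin ρ → Fin (N + 1)} (Φ : Fin ρ → Pk k N)
    (h0 : (Matrix.of fun l m => MvPolynomial.aeval y (MvPolynomial.pderiv (J m) (Φ l))).det ≠ 0)
    {Q₀ : K[X]} {Q : Fin ρ → Fin (N + 1) → K[X]} (hQ : Q₀ ≠ 0) (dQ : ∀ m a, (Q m a).natDegree ≤ α)
    (h1 : ∀ l a, Q₀ * MvPolynomial.aeval (ln y v) (MvPolynomial.pderiv a (Φ l)) =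
      ∑ m, Q m a * MvPolynomial.aeval (ln y v) (MvPolynomial.pderiv (J m) (Φ l)))
    (h2 : ∀ a, Q₀ * MvPolynomial.aeval (ln y v) (MvPolynomial.pderiv a f) =
      ∑ m, Q m a * MvPolynomial.aeval (ln y v) (MvPolynomial.pderiv (J m) f)) :
    Cod (Ann k (Set.range y)) (Ann k (Set.range v)) ((ρ : ℤ) - 1) := by
  let M : Matrix (Fin ρ) (Fin ρ) (Pk k N) := Matrix.of fun l m => MvPolynomial.pderiv (J m) (Φ l)
  let P : Fin ρ → Fin (N + 1) → Pk k N := fun m a =>
    (M.adjugate *ᵥ fun l => MvPolynomial.pderiv a (Φ l)) m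
  let A : Pk k N →ₐ[k] K[X] := MvPolynomial.aeval (ln y v)
  have h3 : MvPolynomial.aeval y M.det ≠ 0 := by
    rw [AlgHom.map_det]
    exact h0
  have h4 : ∀ m a, A M.det * Q m a = Q₀ * A (P m a) := fun m a => by
    have e1 : (A.mapMatrix M) *ᵥ (fun m => Q m a) =
        Q₀ • fun l => A (MvPolynomial.pderiv a (Φ l)) := funext fun l =>
      (Finset.sum_congr rfl fun m _ => mul_comm _ _).trans (h1 l a).symm
    have e2 := congrFun (congrArg ((A.mapMatrix M).adjugate *ᵥ ·) e1) m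
    simp only [Matrix.mulVec_mulVec, Matrix.adjugate_mul, Matrix.smul_mulVec, Matrix.one_mulVec,
      Matrix.mulVec_smul, Pi.smul_apply, smul_eq_mul, ← AlgHom.map_det] at e2
    rw [e2, ← AlgHom.map_adjugate]
    simp [P, Matrix.mulVec, dotProduct]
  obtain ⟨g, r, s, a, b, hg, hr, hs, hb⟩ := bez (p := A M.det) (q := Q₀) (by rwa [ln_zero])
  have hg0 : g ≠ 0 := fun h => by simp [h] at hg
  have hs0 : s ≠ 0 := fun h => hQ (by rw [← hs, h, mul_zero])
  have h5 : ∀ m c, (a * A (P m c) + b * Q m c) * s = Q m c := fun m c =>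
    mul_left_cancel₀ hg0 (by linear_combination (a * A (P m c) + b * Q m c) * hs - Q m c * hb -
      a * (h4 m c))
  obtain ⟨m₀, φ, h6, h7⟩ := val_core hf ns hy hv hα (J := J) (P₀ := M.det) (P := P) (g := g)
    (r := r) (G := fun m c => a * A (P m c) + b * Q m c) h3 hg hr
    (fun m c => mul_left_cancel₀ hg0 (by
      linear_combination (a * A (P m c) + b * Q m c) * hr - A (P m c) * hb + b * (h4 m c)))
    (fun m c => by
      by_cases h : a * A (P m c) + b * Q m c = 0
      · simp [h]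
      have := dQ m c
      rw [← h5, natDegree_mul h hs0] at this
      omega)
    fun c => mul_left_cancel₀ hs0 (by
      rw [← mul_assoc, mul_comm s g, hs, h2, Finset.mul_sum]
      exact Finset.sum_congr rfl fun m _ => by rw [← mul_assoc, mul_comm s, h5])
  have h8 := cod_sum (U := Ann k (Set.range y)) (Finset.univ.erase m₀) (fun m => Ann k {φ m})
    (fun _ => 1) fun m _ => cod_one _ _
  rw [Finset.sum_const, Finset.card_erase_of_mem (Finset.mem_univ _), Finset.card_univ,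
    Fintype.card_fin, nsmul_eq_mul, mul_one, Nat.cast_sub m₀.pos, Nat.cast_one] at h8
  refine h8.weak le_rfl ?_
  rintro D ⟨hD, hD'⟩ _ ⟨i, rfl⟩
  refine h7 D (fun i => hD _ ⟨i, rfl⟩) (fun m => ?_) i
  by_cases h : m = m₀
  · rw [h, h6, D.map_one_eq_zero]
  · exact (Submodule.mem_iInf _).1 ((Submodule.mem_iInf _).1 hD' m)
      (Finset.mem_erase.2 ⟨h, Finset.mem_univ _⟩) _ rfl

end

end Pool.Agent.Lib.MP_41050a_ag.DJ
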