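import Pool.Agent.Lib.MP_41050a_ag.DJ.C

/-! The count at a generic point of a line. -/

namespace Pool.Agent.Lib.MP_41050a_ag.DJ

open Polynomial NK Module Matrix

set_option linter.unusedSectionVars false

noncomputable section

variable {k : Type} [Field k] [IsAlgClosed k] [CharZero k] {N d : ℕ}
  {K : Type} [Field K] [Algebra k K]

/-- The derivative of a tuple. -/
def dv (k : Type) [Field k] [Algebra k K] (v : V K N) : Dr k K →ₗ[K] V K N :=
  ⟨⟨fun D i => D (v i), fun _ _ => rfl⟩, fun _ _ => rfl⟩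

theorem adapted {M : Type} [AddCommGroup M] [Module K M] [FiniteDimensional K M]
    {C T : Submodule K M} (h : C ≤ T) : ∃ (α : ℕ) (c : Fin (finrank K C) → M) (w : Fin α → M),
      finrank K C + α = finrank K T ∧ (∀ s, c s ∈ C) ∧ (∀ s, w s ∈ T) ∧
        LinearIndependent K (Sum.elim c w) := by
  obtain ⟨C', h1⟩ := Submodule.exists_isCompl C
  have h2 : C ⊔ C' ⊓ T = T := by rw [← sup_inf_assoc_of_le _ h, h1.sup_eq_top, top_inf_eq]
  have h3 : Disjoint C (C' ⊓ T) := h1.disjoint.mono_right inf_le_left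
  have h4 := Submodule.finrank_sup_add_finrank_inf_eq C (C' ⊓ T)
  rw [h2, h3.eq_bot, finrank_bot, add_zero] at h4
  let b := finBasis K C
  let b' := finBasis K ↥(C' ⊓ T)
  refine ⟨_, fun s => b s, fun s => b' s, h4.symm, fun s => (b s).2, fun s => (b' s).2.2,
    (b.linearIndependent.map' C.subtype (Submodule.ker_subtype _)).sum_type
      (b'.linearIndependent.map' (C' ⊓ T).subtype (Submodule.ker_subtype _)) (h3.mono ?_ ?_)⟩
  · exact Submodule.span_le.2 (by rintro _ ⟨s, rfl⟩; exact (b s).2)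
  · exact Submodule.span_le.2 (by rintro _ ⟨s, rfl⟩; exact (b' s).2)

theorem core {f : Pk k N} (hf : f.IsHomogeneous d) (ns : NS f) {y v : V K N}
    {i₀ : Fin (N + 1)} (hy : y i₀ ≠ 0) (hv : v i₀ = 0) (hf0 : MvPolynomial.aeval y f = 0)
    (hG : On (RingHom.ker (MvPolynomial.aeval y : Pk k N →ₐ[k] K))
      fun i => (C (C (y i)) * X + C (X * C (v i)) : K[X][X]))
    {m : ℤ} (m1 : (N : ℤ) ≤ m) (m2 : 2 * (N : ℤ) - d ≤ m) :
    Cod ⊤ (Ann k (Set.range y ∪ Set.range v)) m := by
  classical
  set I := RingHom.ker (MvPolynomial.aeval y : Pk k N →ₐ[k] K) with hI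
  let ev1 : K[X][X] →ₐ[k] K[X] := (aeval (1 : K[X]) : K[X][X] →ₐ[K[X]] K[X]).restrictScalars k
  let ev0 : K[X] →ₐ[k] K := (aeval (0 : K) : K[X] →ₐ[K] K).restrictScalars k
  have e1 : ev1 ∘ (fun i => (C (C (y i)) * X + C (X * C (v i)) : K[X][X])) = ln y v :=
    funext fun i => by simp [ev1, ln]
  have hon : On I (ln y v) := e1 ▸ hG.map ev1
  have hy' : Tg I (ln y v) fun i => C (y i) := by
    have := (der_tg hG ((derivative' (R := K[X])).restrictScalars k)).map ev1
    rw [e1] at this
    refine (congrArg (Tg I (ln y v)) (funext fun i => ?_)).mp this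
    simp [ev1]
  have tg0 : ∀ W, Tg I (ln y v) W → (fun i => (W i).eval 0) ∈ tsp I y := fun W hW => by
    have := hW.map ev0
    rwa [show ev0 ∘ ln y v = y from funext fun i => by simp [ev0, ln],
      show ev0 ∘ W = fun i => (W i).eval 0 from funext fun i => by simp [ev0]] at this
  have hD : ∀ D : Dr k K, Tg I (ln y v) (ln (dv k y D) (dv k v D)) := fun D =>
    (congrArg (Tg I (ln y v)) (funext (dP_ln D y v))).mp (der_tg hon (dP D))
  set W₁ := (Ann k (Set.range y)).map (dv k v) with hW₁
  have hC : ∀ w ∈ W₁ ⊔ K ∙ y, Tg I (ln y v) fun i => C (w i) := fun w hw => by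
    obtain ⟨_, ⟨D, h1, rfl⟩, _, h2, rfl⟩ := Submodule.mem_sup.1 hw
    obtain ⟨c, rfl⟩ := Submodule.mem_span_singleton.1 h2
    have h3 : Tg I (ln y v) fun i => C (dv k v D i) := by
      refine tg_of_smul X_ne_zero ((congrArg (Tg I (ln y v)) (funext fun i => ?_)).mp (hD D))
      have : dv k y D i = 0 := h1 _ ⟨i, rfl⟩
      simp [ln, this]
    refine (congrArg (Tg I (ln y v)) (funext fun i => ?_)).mp (h3.add (hy'.smul (C c)))
    simp
  have hle : W₁ ⊔ K ∙ y ≤ tsp I y := fun w hw => by simpa using tg0 _ (hC w hw)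
  have hκ : finrank K ↥(W₁ ⊔ K ∙ y) = finrank K W₁ + 1 :=
    Submodule.finrank_sup_span_singleton (by
      rintro ⟨D, -, h⟩
      have := congrFun h i₀
      exact hy (this.symm.trans (show D (v i₀) = 0 by rw [hv, map_zero])))
  obtain ⟨α, c, w, hα, hc, hw, hi⟩ := adapted hle
  choose D hDw using fun s => exists_der (hw s)
  have hr := tsp_rank (I := I) y
  have hT : finrank K (tsp I y) = finrank K W₁ + 1 + α := by
    rw [← hκ]
    exact hα.symm
  clear hα
  obtain ⟨g, hg, hsp, hgi⟩ := Submodule.exists_fun_fin_finrank_span_eq K {w : V K N | ∃ Φ ∈ I,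
    w = fun i => MvPolynomial.aeval y (MvPolynomial.pderiv i Φ)}
  choose Φ hΦ hgΦ using hg
  have hρ : finrank K (Submodule.span K {w : V K N | ∃ Φ ∈ I,
      w = fun i => MvPolynomial.aeval y (MvPolynomial.pderiv i Φ)}) ≠ 0 := fun h => by
    obtain ⟨a, ha⟩ := ns.ne hy
    have h1 := Submodule.subset_span (R := K) (s := {w : V K N | ∃ Φ ∈ I,
      w = fun i => MvPolynomial.aeval y (MvPolynomial.pderiv i Φ)}) ⟨f, hf0, rfl⟩
    rw [Submodule.finrank_eq_zero.1 h] at h1
    exact ha (congrFun ((Submodule.mem_bot K).1 h1) a)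
  clear hsp
  generalize finrank K (Submodule.span K {w : V K N | ∃ Φ ∈ I,
    w = fun i => MvPolynomial.aeval y (MvPolynomial.pderiv i Φ)}) = ρ at *
  obtain ⟨ρ, rfl⟩ := Nat.exists_eq_succ_of_ne_zero hρ
  obtain ⟨J, hJ⟩ := Function.ne_iff.1 (mn_ne_zero.2 hgi)
  replace hJ : (Matrix.of fun l m =>
      MvPolynomial.aeval y (MvPolynomial.pderiv (J m) (Φ l))).det ≠ 0 := by
    rwa [funext hgΦ] at hJ
  obtain ⟨Q₀, Q, h1, h2, h3⟩ := low (I := I) (x := ln y v) (by simp; omega) J
    (Sum.elim (fun s i => C (c s i)) fun s => ln (w s) (dv k v (D s)))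
    (Sum.elim (fun _ => 0) fun _ => 1)
    (by
      rintro (s | s)
      · exact hC _ (hc s)
      · have := hD (D s)
        rwa [show dv k y (D s) = w s from funext (hDw s)] at this)
    (by
      rintro (s | s) i
      · exact (natDegree_C _).le
      · exact ln_deg _ _ _)
    (by
      have e2 : (fun s i => eval 0 (Sum.elim (fun s i => C (c s i))
          (fun s => ln (w s) (dv k v (D s))) s i)) = Sum.elim c w := by
        funext s i
        rcases s with s | s <;> simp [ln]
      rw [e2, Fintype.linearIndependent_iff]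
      intro z hz
      rw [Fintype.sum_sum_type] at hz
      have h4 : ∑ s, z (.inl s) • Sum.elim c w s ∈ tsp I y :=
        Submodule.sum_mem _ fun s _ => Submodule.smul_mem _ _ (by
          rcases s with s | s
          · exact hle (hc s)
          · exact hw s)
      have h5 : (fun m => z (.inr m)) = 0 := Matrix.eq_zero_of_mulVec_eq_zero hJ (funext fun l => by
        have h6 := h4 (Φ l) (hΦ l)
        rw [show ∑ s, z (.inl s) • Sum.elim c w s =
          -∑ m, z (.inr m) • (Pi.single (J m) 1 : V K N) from eq_neg_of_add_eq_zero_left hz] at h6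
        simp only [Pi.neg_apply, Finset.sum_apply, mul_neg, Finset.sum_neg_distrib, neg_eq_zero,
          Finset.mul_sum] at h6
        rw [Finset.sum_comm] at h6
        simpa [Matrix.mulVec, dotProduct, Pi.single_apply] using h6)
      have h7 : ∀ m, z (.inr m) = 0 := congrFun h5
      simp only [h7, zero_smul, Finset.sum_const_zero, add_zero] at hz
      rintro (s | s)
      · exact Fintype.linearIndependent_iff.1 hi _ hz s
      · exact h7 s)
  have c1 : Cod ⊤ (Ann k (Set.range y)) (finrank K (tsp I y)) :=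
    cod_of_map (dv k y) (T := tsp I y) (T' := ⊥) bot_le
      (fun D _ => der_tg (fun _ h => h) D)
      (by rintro D - h _ ⟨i, rfl⟩; exact congrFun ((Submodule.mem_bot K).1 h) i) (by simp)
  rw [ann_union]
  by_cases hd : α + 1 < d
  · refine (c1.step (small hf ns hy hv hd Φ hJ h1 (by simpa using h2)
      (fun l => h3 _ (hΦ l)) (h3 f hf0)) inf_le_right).mono ?_
    push_cast
    omega
  · have c2 : Cod (Ann k (Set.range y)) (Ann k (Set.range v)) (finrank K W₁) :=
      cod_of_map (dv k v) (T := W₁) (T' := ⊥) bot_le (fun D h => ⟨D, h, rfl⟩)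
        (by rintro D - h _ ⟨i, rfl⟩; exact congrFun ((Submodule.mem_bot K).1 h) i) (by simp)
    refine (c1.step c2 inf_le_right).mono ?_
    omega

end

end Pool.Agent.Lib.MP_41050a_ag.DJ
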