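import Mathlib

/-! Gauss lemma over a valuation ring and degree bounds. -/

namespace Pool.Agent.Lib.MP_41050a_ag.DJ

open Polynomial

variable {K : Type} [Field K]

theorem prim (O : ValuationSubring K) {A : K[X]} (hA : A ≠ 0) :
    ∃ (l : K) (A' : O[X]), l ≠ 0 ∧ A = C l * A'.map (algebraMap O K) ∧
      A'.map (IsLocalRing.residue O) ≠ 0 := by
  obtain ⟨i, hi, hm⟩ := Finset.exists_max_image A.support (fun i => O.valuation (A.coeff i))
    (support_nonempty.2 hA)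
  have h0 : A.coeff i ≠ 0 := mem_support_iff.1 hi
  have hv : O.valuation (A.coeff i) ≠ 0 := (Valuation.ne_zero_iff _).2 h0
  have h1 : C (A.coeff i)⁻¹ * A ∈ lifts (algebraMap O K) := by
    rw [lifts_iff_coeff_lifts]
    intro j
    rw [coeff_C_mul]
    refine ⟨⟨(A.coeff i)⁻¹ * A.coeff j, (O.valuation_le_one_iff _).1 ?_⟩, rfl⟩
    by_cases hj : j ∈ A.support
    · rw [map_mul, map_inv₀]
      exact (inv_mul_le_one₀ (zero_lt_iff.2 hv)).2 (hm j hj)
    · rw [notMem_support_iff.1 hj, mul_zero, map_zero]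
      exact zero_le_one
  obtain ⟨A', hA'⟩ := h1
  replace hA' : A'.map (algebraMap O K) = C (A.coeff i)⁻¹ * A := hA'
  refine ⟨A.coeff i, A', h0, ?_, fun h => ?_⟩
  · rw [hA', ← mul_assoc, ← C_mul, mul_inv_cancel₀ h0, C_1, one_mul]
  · have h2 := congrArg (coeff · i) hA'
    simp only [coeff_map, coeff_C_mul, inv_mul_cancel₀ h0] at h2
    have h3 : A'.coeff i = 1 := Subtype.ext h2
    have h4 := congrArg (coeff · i) h
    simp [h3] at h4

theorem gauss (O : ValuationSubring K) {A B : K[X]} (h0 : B.coeff 0 ≠ 0) (hB : (B.coeff 0)⁻¹ ∈ O)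
    (h : ∀ i, (A * B).coeff i ∈ O) (i : ℕ) : A.coeff i ∈ O := by
  by_cases hA : A = 0
  · simp [hA]
  obtain ⟨l, A', hl, e1, h1⟩ := prim O hA
  obtain ⟨m, B', hm, e2, h2⟩ := prim O (A := B) (fun e => h0 (by simp [e]))
  obtain ⟨j, hj⟩ : ∃ j, IsUnit ((A' * B').coeff j) := by
    by_contra hc
    refine mul_ne_zero h1 h2 ?_
    rw [← Polynomial.map_mul]
    ext j
    rw [coeff_map, coeff_zero, IsLocalRing.residue_eq_zero_iff]
    exact fun hu => hc ⟨j, hu⟩
  obtain ⟨u, hu⟩ := hj.exists_right_inv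
  have h3 : l * m ∈ O := by
    have h4 := h j
    rw [e1, e2, mul_mul_mul_comm, ← C_mul, ← Polynomial.map_mul, coeff_C_mul, coeff_map] at h4
    have h5 := O.mul_mem _ _ h4 u.2
    have h6 : algebraMap O K ((A' * B').coeff j) * u = 1 := congrArg Subtype.val hu
    rwa [mul_assoc, h6, mul_one] at h5
  have h7 : m⁻¹ ∈ O := by
    have h8 : B.coeff 0 = m * B'.coeff 0 := by
      rw [e2, coeff_C_mul, coeff_map]
      rfl
    have h9 := O.mul_mem _ _ hB (B'.coeff 0).2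
    have h10 : (B'.coeff 0 : K) ≠ 0 := fun e => h0 (by rw [h8, e, mul_zero])
    rwa [h8, mul_inv, mul_assoc, inv_mul_cancel₀ h10, mul_one] at h9
  have h11 := O.mul_mem _ _ h3 h7
  rw [mul_assoc, mul_inv_cancel₀ hm, mul_one] at h11
  rw [e1, coeff_C_mul, coeff_map]
  exact O.mul_mem _ _ h11 (A'.coeff i).2

theorem hom_eval (O : ValuationSubring K) {A : K[X]} {α : ℕ} (hd : A.natDegree ≤ α)
    (h : ∀ i, A.coeff i ∈ O) {μ ξ : K} (h1 : μ ∈ O) (h2 : μ * ξ ∈ O) : μ ^ α * A.eval ξ ∈ O := by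
  rw [eval_eq_sum_range' (Nat.lt_succ_of_le hd), Finset.mul_sum]
  refine sum_mem fun j hj => ?_
  obtain ⟨r, rfl⟩ := Nat.exists_eq_add_of_le (Nat.lt_succ_iff.1 (Finset.mem_range.1 hj))
  rw [show μ ^ (j + r) * (A.coeff j * ξ ^ j) = A.coeff j * (μ * ξ) ^ j * μ ^ r by ring]
  exact mul_mem (mul_mem (h j) (pow_mem h2 j)) (pow_mem h1 r)

theorem det_deg {σ : Type} [Fintype σ] [DecidableEq σ] (B : Matrix σ σ K[X]) (δ : σ → ℕ)
    (h : ∀ i j, (B i j).natDegree ≤ δ j) : B.det.natDegree ≤ ∑ j, δ j := by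
  rw [Matrix.det_apply']
  refine natDegree_sum_le_of_forall_le _ _ fun π _ => natDegree_mul_le.trans ?_
  rw [natDegree_intCast, zero_add]
  exact (natDegree_prod_le _ _).trans (Finset.sum_le_sum fun j _ => h _ j)

/-- A coordinate of largest size. -/
theorem big (O : ValuationSubring K) {ι : Type} [Fintype ι] {x : ι → K} (hx : x ≠ 0) :
    ∃ i, x i ≠ 0 ∧ ∀ j, (x i)⁻¹ * x j ∈ O := by
  obtain ⟨j, hj⟩ := Function.ne_iff.1 hx
  obtain ⟨i, -, hm⟩ := Finset.exists_max_image Finset.univ (fun i => O.valuation (x i))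
    ⟨j, Finset.mem_univ j⟩
  have hv : 0 < O.valuation (x i) :=
    (zero_lt_iff.2 ((Valuation.ne_zero_iff _).2 hj)).trans_le (hm j (Finset.mem_univ j))
  refine ⟨i, (Valuation.ne_zero_iff _).1 hv.ne', fun l => (O.valuation_le_one_iff _).1 ?_⟩
  rw [map_mul, map_inv₀]
  exact (inv_mul_le_one₀ hv).2 (hm l (Finset.mem_univ l))

/-- If a combination with integral coefficients is `1`, one of the terms is a unit. -/
theorem unit_of_sum (O : ValuationSubring K) {ι : Type} [Fintype ι] {a b : ι → K}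
    (ha : ∀ i, a i ∈ O) (h : ∑ i, a i * b i = 1) :
    ∃ i, b i ≠ 0 ∧ (b i)⁻¹ ∈ O := by
  by_contra hc
  have h1 : ∀ i, O.valuation (a i * b i) < 1 := fun i => by
    by_cases h0 : b i = 0
    · simp [h0]
    have h2 : ¬O.valuation (b i)⁻¹ ≤ 1 := fun e => hc ⟨i, h0, (O.valuation_le_one_iff _).1 e⟩
    have h3 : O.valuation (b i) < 1 := by
      rw [map_inv₀, not_le] at h2
      exact (one_lt_inv₀ (zero_lt_iff.2 ((Valuation.ne_zero_iff _).2 h0))).1 h2
    rw [map_mul]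
    exact mul_lt_one_of_nonneg_of_lt_one_right ((O.valuation_le_one_iff _).2 (ha i)) zero_le h3
  have := O.valuation.map_sum_lt one_ne_zero (s := Finset.univ) fun i _ => h1 i
  rw [h, map_one] at this
  exact lt_irrefl _ this

end Pool.Agent.Lib.MP_41050a_ag.DJ
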