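import Pool.Agent.Lib.MP_41050a_ag.DJ.E
import Pool.Agent.Lib.MP_751085_ag.Krull

/-! The Krull dimension of the components of the scheme of lines. -/

namespace Pool.Agent.Lib.MP_41050a_ag.DJ

open Polynomial NK Module

set_option linter.unusedSectionVars false

noncomputable section

variable {k : Type} [Field k] [IsAlgClosed k] [CharZero k] {N d : ℕ}
  {Λ : Type} [Field Λ] [Algebra k Λ] {f : Pk k N}

theorem chart (hf : f.IsHomogeneous d) (ns : NS f) {m : ℤ} (m1 : (N : ℤ) ≤ m)
    (m2 : 2 * (N : ℤ) - d ≤ m) {p q : V Λ N} (h : MvPolynomial.aeval (ln p q) f = 0)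
    {i j : Fin (N + 1)} (h1 : p i = 1) (h2 : p j = 0) (h3 : q i = 0) (h4 : q j = 1) {c : ℕ}
    (hc : Ind k (IntermediateField.adjoin k (Set.range p ∪ Set.range q) : Set Λ) c) :
    (c : ℤ) + 3 ≤ m := by
  obtain ⟨t, ht, ht'⟩ := hc
  obtain ⟨K, _, _, _, _, a, ha⟩ := exists_ext k Λ 4
  let φ := IsScalarTower.toAlgHom k Λ K
  have inj : Function.Injective (MvPolynomial.aeval a : MvPolynomial (Fin 4) Λ →ₐ[Λ] K) := ha
  let y : V K N := fun i => a 0 * φ (p i) + a 1 * φ (q i)
  let u : V K N := fun i => a 2 * φ (p i) + a 3 * φ (q i)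
  have hΔ : a 0 * a 3 - a 1 * a 2 ≠ 0 := fun e => by
    have h1 : (MvPolynomial.X 0 * MvPolynomial.X 3 - MvPolynomial.X 1 * MvPolynomial.X 2 :
        MvPolynomial (Fin 4) Λ) = 0 := inj (by simpa using e)
    simpa using congrArg (MvPolynomial.eval ![1, 0, 0, 1]) h1
  have h5 : MvPolynomial.aeval (ln y u) f = 0 := by
    let ψ := IsScalarTower.toAlgHom k K[X] (RatFunc K)
    have hψ : Function.Injective ψ := IsFractionRing.injective K[X] (RatFunc K)
    have h6 : ψ (C (a 0) + X * C (a 2)) ≠ 0 := (map_ne_zero_iff ψ hψ).2 fun e =>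
      ha.ne_zero 0 (by simpa using congrArg (eval 0) e)
    have h7 := congrArg (eval 1) (ln_scale hf (ln_map
      (ψ.comp ((IsScalarTower.toAlgHom k K K[X]).comp φ)) h) h6 (ψ (C (a 1) + X * C (a 3))))
    rw [ln_eval, eval_zero] at h7
    refine hψ ((map_aev ψ _ f).trans (Eq.trans ?_ (h7.trans (map_zero ψ).symm)))
    congr 2
    funext l
    simp only [Function.comp, ln, y, u, Pi.smul_apply, smul_eq_mul, AlgHom.comp_apply,
      IsScalarTower.coe_toAlgHom' k K K[X], algebraMap_eq, one_mul, ← map_mul ψ, ← map_add ψ, C_add,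
      C_mul]
    congr 1
    ring
  set S := Set.range y ∪ Set.range u
  have sy : ∀ i, y i ∈ IntermediateField.adjoin k S := fun i =>
    IntermediateField.subset_adjoin k S (Or.inl ⟨i, rfl⟩)
  have su : ∀ i, u i ∈ IntermediateField.adjoin k S := fun i =>
    IntermediateField.subset_adjoin k S (Or.inr ⟨i, rfl⟩)
  have sa : ∀ j, a j ∈ IntermediateField.adjoin k S := fun l => by
    fin_cases l
    · simpa [y, h1, h3] using sy i
    · simpa [y, h2, h4] using sy j
    · simpa [u, h1, h3] using su i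
    · simpa [u, h2, h4] using su j
  have h4 : IntermediateField.adjoin k (Set.range p ∪ Set.range q) ≤
      (IntermediateField.adjoin k S).comap φ := IntermediateField.adjoin_le_iff.2 (by
    rintro _ (⟨i, rfl⟩ | ⟨i, rfl⟩)
    · change φ (p i) ∈ IntermediateField.adjoin k S
      rw [show φ (p i) = (a 3 * y i - a 1 * u i) / (a 0 * a 3 - a 1 * a 2) by
        rw [eq_div_iff hΔ]
        ring]
      exact div_mem (sub_mem (mul_mem (sa _) (sy _)) (mul_mem (sa _) (su _)))
        (sub_mem (mul_mem (sa _) (sa _)) (mul_mem (sa _) (sa _)))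
    · change φ (q i) ∈ IntermediateField.adjoin k S
      rw [show φ (q i) = (a 0 * u i - a 2 * y i) / (a 0 * a 3 - a 1 * a 2) by
        rw [eq_div_iff hΔ]
        ring]
      exact div_mem (sub_mem (mul_mem (sa _) (su _)) (mul_mem (sa _) (sy _)))
        (sub_mem (mul_mem (sa _) (sa _)) (mul_mem (sa _) (sa _))))
  have := line hf ns m1 m2 h5
    (ind_sum ha ht (S := IntermediateField.adjoin k S) sa fun l => h4 (ht' l))
  push_cast at this
  omega

theorem dim_trdeg (k A : Type) [Field k] [CommRing A] [IsDomain A] [Algebra k A]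
    [Algebra.FiniteType k A] : ∃ (s : ℕ) (t : Fin s → A), AlgebraicIndependent k t ∧
      ringKrullDim A = s ∧ (Algebra.trdeg k A).toNat = s := by
  obtain ⟨s, g, hinj, hint⟩ := exists_integral_inj_algHom_of_fg k A
  let : Algebra (MvPolynomial (Fin s) k) A := g.toRingHom.toAlgebra
  have : IsScalarTower k (MvPolynomial (Fin s) k) A :=
    IsScalarTower.of_algebraMap_eq fun c => (g.commutes c).symm
  have : FaithfulSMul (MvPolynomial (Fin s) k) A :=
    (faithfulSMul_iff_algebraMap_injective _ _).2 hinj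
  have : Algebra.IsIntegral (MvPolynomial (Fin s) k) A := ⟨hint⟩
  have h1 : Algebra.trdeg k A = s := by
    rw [← trdeg_add_eq k (MvPolynomial (Fin s) k) (A := A),
      trdeg_eq_zero (R := MvPolynomial (Fin s) k) (A := A), MvPolynomial.trdeg_of_isDomain]
    simp
  have h2 : ringKrullDim (MvPolynomial (Fin s) k) = s := by
    rw [MvPolynomial.ringKrullDim_of_isNoetherianRing, ringKrullDim_eq_zero_of_field]
    simp
  refine ⟨s, _, (MvPolynomial.algebraicIndependent_X (Fin s) k).map' hinj, ?_, by simp [h1]⟩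
  rw [← h2]
  refine le_antisymm (Order.krullDim_le_of_strictMono
    (PrimeSpectrum.comap (algebraMap (MvPolynomial (Fin s) k) A)) fun I J h =>
      Ideal.IsIntegral.comap_lt_comap h) (iSup_le fun l => ?_)
  obtain ⟨P, hP, hP'⟩ := Ideal.exists_ideal_over_prime_of_isIntegral_of_isDomain (S := A)
    l.head.asIdeal (((RingHom.injective_iff_ker_eq_bot _).1
      (FaithfulSMul.algebraMap_injective (MvPolynomial (Fin s) k) A)).le.trans bot_le)
  obtain ⟨L, hL, -⟩ := Ideal.exists_ltSeries_of_hasGoingUp l P (lo := ⟨hP'.symm⟩)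
  rw [← hL]
  exact Order.LTSeries.length_le_krullDim L

theorem main (hd : 1 ≤ d) (hf : f.IsHomogeneous d)
    (hs : ∀ x : Fin (N + 1) → k, MvPolynomial.aeval x f = 0 →
      (∀ i, MvPolynomial.aeval x (MvPolynomial.pderiv i f) = 0) → x = 0) {a b : Fin (N + 1)}
    {P : Ideal (MvPolynomial (Fin 2 × Fin (N + 1)) k)}
    (hP : P ∈ (Ideal.span ((Set.range fun j : Fin (d + 1) => (MvPolynomial.aeval
      (fun i => C (MvPolynomial.X (0, i)) + X * C (MvPolynomial.X (1, i)) :
        _ → (MvPolynomial (Fin 2 × Fin (N + 1)) k)[X]) f).coeff j) ∪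
      {MvPolynomial.X (0, a) - 1, MvPolynomial.X (0, b), MvPolynomial.X (1, a),
        MvPolynomial.X (1, b) - 1})).minimalPrimes) :
    ∃ s : ℕ, ringKrullDim (MvPolynomial (Fin 2 × Fin (N + 1)) k ⧸ P) = s ∧ 2 * N ≤ s + d + 3 ∧
      s + min d N + 3 ≤ 2 * N := by
  have := hP.isPrime
  obtain ⟨s, t, ht, h1, h2⟩ := dim_trdeg k (MvPolynomial (Fin 2 × Fin (N + 1)) k ⧸ P)
  set w : Fin (N + 1) → (MvPolynomial (Fin 2 × Fin (N + 1)) k)[X] :=
    fun i => C (MvPolynomial.X (0, i)) + X * C (MvPolynomial.X (1, i)) with hw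
  refine ⟨s, h1, ?_, ?_⟩
  · have h3 := Pool.Agent.HZ.dm_krull (P := ⊥) (Q := P) Ideal.isPrime_bot
      (Sum.elim (fun j : Fin (d + 1) => (MvPolynomial.aeval w f).coeff j)
        ![MvPolynomial.X (0, a) - 1, MvPolynomial.X (0, b), MvPolynomial.X (1, a),
          MvPolynomial.X (1, b) - 1] ∘ finSumFinEquiv.symm) (by
      rw [bot_sup_eq, EquivLike.range_comp, Set.Sum.elim_range]
      simpa only [Matrix.range_cons, Matrix.range_empty, Set.singleton_union, Set.union_empty]
        using hP)
    rw [Pool.Agent.HZ.dm_bot, show Pool.Agent.HZ.dm P = s from h2] at h3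
    simp only [Fintype.card_prod, Fintype.card_fin] at h3
    omega
  · let A := MvPolynomial (Fin 2 × Fin (N + 1)) k ⧸ P
    let ψ := IsScalarTower.toAlgHom k A (FractionRing A)
    let φ := ψ.comp (Ideal.Quotient.mkₐ k P)
    have h0 : ∀ g ∈ P, φ g = 0 := fun g hg =>
      (congrArg ψ (Ideal.Quotient.eq_zero_iff_mem.2 hg)).trans (map_zero ψ)
    have h4 := fun g hg => h0 g (hP.le (Ideal.subset_span hg))
    have h5 : MvPolynomial.aeval
        (ln (fun i => φ (MvPolynomial.X (0, i))) fun i => φ (MvPolynomial.X (1, i))) f = 0 := by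
      have e := map_aev_poly φ w f
      rw [show (fun i => (w i).map (φ : _ →+* _)) = ln (fun i => φ (MvPolynomial.X (0, i)))
        fun i => φ (MvPolynomial.X (1, i)) from funext fun i => by simp [hw, ln]] at e
      rw [← e]
      ext j
      rw [coeff_map, coeff_zero]
      by_cases hj : j < d + 1
      · exact h4 _ (Or.inl ⟨⟨j, hj⟩, rfl⟩)
      · rw [coeff_eq_zero_of_natDegree_lt (((coeff_aev hf (e := 1) fun i => by
          rw [hw]
          compute_degree).1).trans_lt (by omega)), map_zero]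
    have h6 := chart hf (ns_of hf (by omega) hs) (m := 2 * N - (min d N : ℕ)) (by omega) (by omega)
      h5 (i := a) (j := b)
      (by simpa [sub_eq_zero] using h4 _ (Or.inr (Or.inl rfl)))
      (h4 _ (Or.inr (Or.inr (Or.inl rfl)))) (h4 _ (Or.inr (Or.inr (Or.inr (Or.inl rfl)))))
      (by simpa [sub_eq_zero] using h4 _ (Or.inr (Or.inr (Or.inr (Or.inr rfl)))))
      ⟨ψ ∘ t, ht.map' (IsFractionRing.injective A _), fun l => by
        obtain ⟨g, hg⟩ := Ideal.Quotient.mk_surjective (t l)
        rw [Function.comp_apply, ← hg]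
        change φ g ∈ _
        clear hg
        induction g using MvPolynomial.induction_on with
        | C c => exact (φ.commutes c).symm ▸ IntermediateField.algebraMap_mem _ c
        | add p q hp hq => rw [map_add]; exact add_mem hp hq
        | mul_X p x hp =>
          rw [map_mul]
          refine mul_mem hp (IntermediateField.subset_adjoin _ _ ?_)
          obtain ⟨r, i⟩ := x
          fin_cases r
          · exact Or.inl ⟨i, rfl⟩
          · exact Or.inr ⟨i, rfl⟩⟩
    omega

end

end Pool.Agent.Lib.MP_41050a_ag.DJ
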