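import Pool.Agent.Lib.MP_41050a_ag.DJ.A
import Pool.Agent.Lib.MP_41050a_ag.NK.SecA

/-! A syzygy of low degree forces the cone of lines to be small. -/

namespace Pool.Agent.Lib.MP_41050a_ag.DJ

open Polynomial NK

set_option linter.unusedSectionVars false

noncomputable section

variable {k : Type} [Field k] [IsAlgClosed k] [CharZero k] {N d : ℕ}
  {K : Type} [Field K] [Algebra k K]

theorem der_of_val (D : Dr k K) {z : K}
    (h : ∀ O : ValuationSubring K, (∀ a, D a = 0 → a ∈ O) → z ∈ O) : D z = 0 := by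
  let L : Subring K :=
    { carrier := {a | D a = 0}
      mul_mem' := fun {a b} (ha : D a = 0) (hb : D b = 0) => show D (a * b) = 0 by
        rw [D.leibniz, ha, hb, smul_zero, smul_zero, add_zero]
      one_mem' := D.map_one_eq_zero
      add_mem' := fun {a b} (ha : D a = 0) (hb : D b = 0) => show D (a + b) = 0 by
        rw [map_add, ha, hb, add_zero]
      zero_mem' := map_zero D
      neg_mem' := fun {a} (ha : D a = 0) => show D (-a) = 0 by rw [map_neg, ha, neg_zero] }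
  have : IsIntegrallyClosedIn L K := Subring.isIntegrallyClosedIn_iff.2 fun x hx => by
    have hle : L ≤ (Algebra.adjoin k (L : Set K)).toSubring := Algebra.subset_adjoin
    obtain ⟨p, hp, hpx⟩ := hx
    refine ann_alg (S := (L : Set K)) (fun a ha => ha) (IsIntegral.isAlgebraic
      ⟨p.map (Subring.inclusion hle), hp.map _, ?_⟩)
    rw [eval₂_map]
    exact hpx
  by_contra hz
  obtain ⟨O, h1, h2⟩ := L.exists_le_valuationSubring_of_isIntegrallyClosedIn (x := z) hz
  exact h2 (h O fun a ha => h1 ha)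

theorem aev_mem {R : Type} [CommRing R] [Algebra k R] (S : Subring R)
    (hk : ∀ a : k, algebraMap k R a ∈ S) {w : V R N} (hw : ∀ i, w i ∈ S) (Φ : Pk k N) :
    MvPolynomial.aeval w Φ ∈ S := by
  induction Φ using MvPolynomial.induction_on with
  | C c => simpa using hk c
  | add p q hp hq => rw [map_add]; exact S.add_mem hp hq
  | mul_X p j hp => rw [map_mul, MvPolynomial.aeval_X]; exact S.mul_mem hp (hw j)

/-- The line through `y` with direction `v`. -/
def ln (y v : V K N) : V K[X] N := fun i => C (y i) + X * C (v i)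

theorem ln_eval (y v : V K N) (c : K) (Φ : Pk k N) :
    (MvPolynomial.aeval (ln y v) Φ).eval c = MvPolynomial.aeval (fun i => y i + c * v i) Φ := by
  rw [eval_aev]
  simp only [ln, eval_add, eval_mul, eval_C, eval_X]

theorem ln_zero (y v : V K N) (Φ : Pk k N) :
    (MvPolynomial.aeval (ln y v) Φ).coeff 0 = MvPolynomial.aeval y Φ := by
  rw [coeff_zero_eq_eval_zero, ln_eval]
  simp

theorem ln_comp (y v : V K N) (c : K) (Φ : Pk k N) :
    (MvPolynomial.aeval (ln y v) Φ).comp (C c * X) =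
      MvPolynomial.aeval (ln y fun i => c * v i) Φ := by
  rw [comp_eq_aeval]
  refine (map_aev ((aeval (C c * X) : K[X] →ₐ[K] K[X]).restrictScalars k) _ Φ).trans ?_
  congr 2
  funext i
  simp [ln]
  ring

theorem ln_mem (O : ValuationSubring K) (hk : ∀ a : k, algebraMap k K a ∈ O) {y v : V K N}
    (hy : ∀ i, y i ∈ O) (hv : ∀ i, v i ∈ O) (Φ : Pk k N) (j : ℕ) :
    (MvPolynomial.aeval (ln y v) Φ).coeff j ∈ O := by
  have hC : ∀ a ∈ O, C a ∈ liftsRing (algebraMap O K) := fun a ha =>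
    C_mem_lifts (algebraMap O K) ⟨a, ha⟩
  have h := aev_mem (k := k) (liftsRing (algebraMap O K)) (fun a => hC _ (hk a)) (w := ln y v)
    (fun i => add_mem (hC _ (hy i)) (mul_mem (X_mem_lifts _) (hC _ (hv i)))) Φ
  obtain ⟨a, ha⟩ := (lifts_iff_coeff_lifts _).1 ((lifts_iff_liftsRing _ _).2 h) j
  rw [← ha]
  exact a.2

/-- No common zero of the partial derivatives. -/
def NS (f : Pk k N) : Prop :=
  ∀ i, ∃ m, MvPolynomial.X i ^ m ∈ Ideal.span (Set.range fun j => MvPolynomial.pderiv j f)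

theorem NS.ne {f : Pk k N} (h : NS f) {x : V K N} {i : Fin (N + 1)} (hx : x i ≠ 0) :
    ∃ a, MvPolynomial.aeval x (MvPolynomial.pderiv a f) ≠ 0 := by
  by_contra hc
  simp only [not_exists, not_not] at hc
  obtain ⟨m, hm⟩ := h i
  obtain ⟨A, hA⟩ := Ideal.mem_span_range_iff_exists_fun.1 hm
  have := congrArg (MvPolynomial.aeval x) hA
  simp only [map_sum, map_mul, hc, mul_zero, Finset.sum_const_zero, map_pow,
    MvPolynomial.aeval_X] at this
  exact pow_ne_zero m hx this.symm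

theorem val_core {f : Pk k N} (hf : f.IsHomogeneous d) (ns : NS f) {y v : V K N}
    {i₀ : Fin (N + 1)} (hy : y i₀ ≠ 0) (hv : v i₀ = 0) {ρ α : ℕ} (hα : α + 1 < d)
    {J : Fin ρ → Fin (N + 1)} {P₀ : Pk k N} {P : Fin ρ → Fin (N + 1) → Pk k N} {g r : K[X]}
    {G : Fin ρ → Fin (N + 1) → K[X]} (h0 : MvPolynomial.aeval y P₀ ≠ 0) (hg : g.coeff 0 = 1)
    (e0 : g * r = MvPolynomial.aeval (ln y v) P₀)
    (e1 : ∀ m a, G m a * r = MvPolynomial.aeval (ln y v) (P m a))
    (dG : ∀ m a, (G m a).natDegree ≤ α)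
    (rel : ∀ a, g * MvPolynomial.aeval (ln y v) (MvPolynomial.pderiv a f) =
      ∑ m, G m a * MvPolynomial.aeval (ln y v) (MvPolynomial.pderiv (J m) f)) :
    ∃ (m₀ : Fin ρ) (φ : Fin ρ → K), φ m₀ = 1 ∧
      ∀ D : Dr k K, (∀ i, D (y i) = 0) → (∀ m, D (φ m) = 0) → ∀ i, D (v i) = 0 := by
  have : CharZero K := charZero_of_injective_algebraMap (algebraMap k K).injective
  obtain ⟨c, hc⟩ : ∃ c : ℕ, (X * g).eval (c : K) ≠ 0 := by
    by_contra h
    simp only [not_exists, not_not] at h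
    have h1 := eq_zero_of_infinite_isRoot (X * g)
      (Set.infinite_of_injective_forall_mem (f := Nat.cast) Nat.cast_injective h)
    rw [(mul_eq_zero.1 h1).resolve_left X_ne_zero, coeff_zero] at hg
    exact zero_ne_one hg
  rw [eval_mul, eval_X, mul_ne_zero_iff] at hc
  obtain ⟨hc, hγ⟩ := hc
  obtain ⟨e, he⟩ : ∃ e, d - 1 = α + (e + 1) := ⟨d - 1 - α - 1, by omega⟩
  set x : V K N := fun i => y i + c * v i with hx
  have hx0 : x i₀ = y i₀ := by simp [hx, hv]
  set ψ : Fin (N + 1) → K := fun a => MvPolynomial.aeval x (MvPolynomial.pderiv a f) with hψ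
  have rel' : ∀ a, g.eval (c : K) * ψ a = ∑ m, (G m a).eval (c : K) * ψ (J m) := fun a => by
    have := congrArg (eval (c : K)) (rel a)
    simpa only [eval_mul, eval_finsetSum, ln_eval] using this
  obtain ⟨m₀, hm₀⟩ : ∃ m, ψ (J m) ≠ 0 := by
    by_contra h
    simp only [not_exists, not_not] at h
    obtain ⟨a, ha⟩ := ns.ne (x := x) (hx0 ▸ hy)
    refine mul_ne_zero hγ ha ((rel' a).trans ?_)
    simp [h]
  refine ⟨m₀, fun m => ψ (J m) / ψ (J m₀), div_self hm₀, fun D hD hφ i => ?_⟩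
  by_cases hv0 : v = 0
  · simp [hv0]
  have hr : r.coeff 0 = MvPolynomial.aeval y P₀ := by
    rw [← ln_zero y v, ← e0, mul_coeff_zero, hg, one_mul]
  have key : ∀ i, D (g.eval (c : K) * x i ^ (e + 1) / ψ (J m₀)) = 0 := fun i => by
    refine der_of_val D fun O hO => ?_
    have hk : ∀ a : k, algebraMap k K a ∈ O := fun a => hO _ (D.map_algebraMap a)
    have hyO : ∀ i, y i ∈ O := fun i => hO _ (hD i)
    obtain ⟨i₁, h1, h2⟩ := big O (x := x) (Function.ne_iff.2 ⟨i₀, hx0 ▸ hy⟩)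
    obtain ⟨i₂, h3, h4⟩ := big O hv0
    set μ := (x i₁)⁻¹ with hμ
    have hμ0 : μ ≠ 0 := inv_ne_zero h1
    have hμO : μ ∈ O := by
      have h5 := mul_mem (h2 i₀) (hO (y i₀)⁻¹ (by rw [D.leibniz_inv, hD, smul_zero]))
      rwa [hx0, mul_assoc, mul_inv_cancel₀ hy, mul_one] at h5
    have hν : μ * (c * v i₂) ∈ O := by
      have h5 := sub_mem (h2 i₂) (mul_mem hμO (hyO i₂))
      rwa [hx, ← mul_sub, add_sub_cancel_left] at h5
    have hI : ∀ (A : K[X]) (Φ : Pk k N), A * r = MvPolynomial.aeval (ln y v) Φ →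
        A.natDegree ≤ α → μ ^ α * A.eval (c : K) ∈ O := fun A Φ hA hd => by
      have h5 : (r.comp (C (v i₂)⁻¹ * X)).coeff 0 = MvPolynomial.aeval y P₀ := by
        rw [comp_C_mul_X_coeff, pow_zero, mul_one, hr]
      have h6 := hom_eval O (A := A.comp (C (v i₂)⁻¹ * X)) (α := α)
        (natDegree_comp_le.trans ((Nat.mul_le_mul hd (natDegree_C_mul_le _ _)).trans (by simp)))
        (gauss O (B := r.comp (C (v i₂)⁻¹ * X)) (h5 ▸ h0) (h5 ▸ hO _ (by
          rw [D.leibniz_inv, ← two_chain]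
          simp [hD])) fun j => by
          rw [← mul_comp, hA, ln_comp]
          exact ln_mem O hk hyO h4 Φ j) hμO hν
      rwa [eval_comp, eval_mul, eval_C, eval_X, mul_left_comm, inv_mul_cancel₀ h3, mul_one] at h6
    obtain ⟨m, hm⟩ := ns i₁
    obtain ⟨A, hA⟩ := Ideal.mem_span_range_iff_exists_fun.1 hm
    have h7 := congrArg (MvPolynomial.aeval (μ • x)) hA
    simp only [map_sum, map_mul, map_pow, MvPolynomial.aeval_X, aev_smul hf.pderiv, Pi.smul_apply,
      smul_eq_mul] at h7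
    rw [show μ * x i₁ = 1 from inv_mul_cancel₀ h1, one_pow] at h7
    obtain ⟨a, ha, ha'⟩ := unit_of_sum O (fun a => aev_mem O.toSubring hk (w := μ • x) h2 (A a)) h7
    change μ ^ (d - 1) * ψ a ≠ 0 at ha
    change (μ ^ (d - 1) * ψ a)⁻¹ ∈ O at ha'
    have h8 : g.eval (c : K) * x i ^ (e + 1) / ψ (J m₀) = (μ ^ (d - 1) * ψ a)⁻¹ *
        (∑ m, μ ^ α * (G m a).eval (c : K) * (ψ (J m) / ψ (J m₀))) * (μ * x i) ^ (e + 1) := by
      have h9 : ∑ m, μ ^ α * (G m a).eval (c : K) * (ψ (J m) / ψ (J m₀)) =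
          μ ^ α * (g.eval (c : K) * ψ a) / ψ (J m₀) := by
        rw [rel', Finset.mul_sum, Finset.sum_div]
        exact Finset.sum_congr rfl fun m _ => by ring
      have h10 : ψ a ≠ 0 := right_ne_zero_of_mul ha
      rw [h9, he]
      field_simp
      ring_nf
    rw [h8]
    exact mul_mem (mul_mem ha' (sum_mem fun m _ =>
      mul_mem (hI _ _ (e1 m a) (dG m a)) (hO _ (hφ m)))) (pow_mem (h2 i) _)
  have h1 : x i ^ (e + 1) = g.eval (c : K) * x i ^ (e + 1) / ψ (J m₀) *
      (g.eval (c : K) * x i₀ ^ (e + 1) / ψ (J m₀))⁻¹ * y i₀ ^ (e + 1) := by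
    rw [hx0]
    field_simp
  have h2 : D (x i ^ (e + 1)) = 0 := by
    rw [h1, D.leibniz, D.leibniz, D.leibniz_inv, D.leibniz_pow, key, key, hD]
    simp
  have h3 : D (x i) = 0 := by
    by_cases h : x i = 0
    · rw [h, map_zero]
    rw [D.leibniz_pow, Nat.add_sub_cancel, smul_eq_mul, nsmul_eq_mul] at h2
    exact (mul_eq_zero.1 ((mul_eq_zero.1 h2).resolve_left (Nat.cast_ne_zero.2 e.succ_ne_zero))
      ).resolve_left (pow_ne_zero _ h)
  rw [hx, map_add, hD, zero_add, D.leibniz, D.map_natCast, smul_zero, add_zero, smul_eq_mul] at h3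
  exact (mul_eq_zero.1 h3).resolve_left hc

end

end Pool.Agent.Lib.MP_41050a_ag.DJ
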