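import Pool.Agent.Lib.MP_41050a_ag.DJ.B
import Pool.Agent.Lib.MP_07b2d0_nt.KA4

/-! A form without singular zero defines a smooth variety. -/

namespace Pool.Agent.Lib.MP_41050a_ag.DJ

open Polynomial NK

set_option linter.unusedSectionVars false

noncomputable section

variable {k : Type} [Field k] [IsAlgClosed k] [CharZero k] {N n d : ℕ}

theorem brg_on {f : Pk k N} {R : Type} [CommRing R] [Algebra k R] {x : V R N} :
    On (Ideal.span {f}) x ↔ MvPolynomial.aeval x f = 0 := by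
  refine ⟨fun h => h f (Ideal.mem_span_singleton_self f), fun h Φ hΦ => ?_⟩
  obtain ⟨g, rfl⟩ := Ideal.mem_span_singleton'.1 hΦ
  rw [map_mul, h, mul_zero]

theorem brg_tg {f : Pk k N} {R : Type} [CommRing R] [Algebra k R] {x v : V R N}
    (h0 : On (Ideal.span {f}) x) : Tg (Ideal.span {f}) x v ↔
      ∑ i, MvPolynomial.aeval x (MvPolynomial.pderiv i f) * v i = 0 := by
  refine ⟨fun h => h f (Ideal.mem_span_singleton_self f), fun h Φ hΦ => ?_⟩
  obtain ⟨g, rfl⟩ := Ideal.mem_span_singleton'.1 hΦ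
  simp only [Derivation.leibniz, smul_eq_mul, map_add, map_mul, brg_on.1 h0, zero_mul, add_zero,
    mul_assoc]
  rw [← Finset.mul_sum, h, mul_zero]

theorem brg_zero {f : Pk k N} (hf : f.IsHomogeneous d) (hd : d ≠ 0) :
    MvPolynomial.aeval (0 : V k N) f = 0 := by
  have := aev_smul hf (0 : k) (0 : V k N)
  rwa [smul_zero, zero_pow hd, zero_mul] at this

/-- If `g` does not vanish at the origin, `h` vanishes on the lines through the zeros of `g`. -/
theorem brg_common {g h : Pk k N} (hf : (g * h).IsHomogeneous d) (hg : ¬IsUnit g)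
    (h0 : MvPolynomial.aeval (0 : V k N) g ≠ 0) :
    ∃ z : V k N, z ≠ 0 ∧ MvPolynomial.aeval z g = 0 ∧ MvPolynomial.aeval z h = 0 := by
  obtain ⟨m, hm, hgm⟩ := exists_max_ideal_of_mem_nonunits (a := g) hg
  obtain ⟨z, rfl⟩ := MvPolynomial.isMaximal_iff_eq_vanishingIdeal_singleton.1 hm
  have hz : MvPolynomial.aeval z g = 0 := (MvPolynomial.mem_vanishingIdeal_singleton_iff z g).1 hgm
  refine ⟨z, fun e => h0 (e ▸ hz), hz, ?_⟩
  have e1 : MvPolynomial.aeval (ln 0 z) (g * h) = 0 := by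
    refine Polynomial.funext fun c => ?_
    have e : (fun i => (0 : V k N) i + c * z i) = c • z := funext fun i => by simp
    rw [ln_eval, e, aev_smul hf, map_mul, hz, zero_mul, mul_zero, eval_zero]
  rw [map_mul] at e1
  rcases mul_eq_zero.1 e1 with e2 | e2
  · exact absurd (by rw [← ln_zero 0 z g, e2, coeff_zero]) h0
  · have := ln_eval 0 z 1 h
    rw [e2, eval_zero] at this
    simpa using this.symm

theorem brg_irr {f : Pk k N} (hf : f.IsHomogeneous d) (hd : d ≠ 0) (hN : 2 ≤ N) (ns : NS f) :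
    Irreducible f := by
  refine ⟨fun hu => (hu.map (MvPolynomial.aeval (0 : V k N))).ne_zero (brg_zero hf hd),
    fun g h e => ?_⟩
  subst e
  by_contra hc
  obtain ⟨hg, hh⟩ := not_or.1 hc
  have key : ∃ z : V k N, z ≠ 0 ∧ MvPolynomial.aeval z g = 0 ∧ MvPolynomial.aeval z h = 0 := by
    by_cases g0 : MvPolynomial.aeval (0 : V k N) g = 0
    · by_cases h0 : MvPolynomial.aeval (0 : V k N) h = 0
      · obtain ⟨z, hz, h1⟩ := MP_07b2d0_nt.Ks.exists_ne_zero_common_zero (k := k)
          (σ := Fin (N + 1)) (ι := Fin 2) (by simp; omega) ![g, h]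
          (Fin.forall_fin_two.2 ⟨g0, h0⟩)
        exact ⟨z, hz, h1 0, h1 1⟩
      · obtain ⟨z, h1, h2, h3⟩ := brg_common (mul_comm g h ▸ hf) hh h0
        exact ⟨z, h1, h3, h2⟩
    · exact brg_common hf hg g0
  obtain ⟨z, hz, h1, h2⟩ := key
  obtain ⟨i, hi⟩ := Function.ne_iff.1 hz
  obtain ⟨a, ha⟩ := ns.ne hi
  exact ha (by rw [MvPolynomial.pderiv_mul, map_add, map_mul, map_mul, h1, h2, mul_zero, zero_mul,
    add_zero])

theorem brg_cone {f : Pk k N} (hf : f.IsHomogeneous d) (hd : d ≠ 0) (hN : 2 ≤ N) (ns : NS f) :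
    Cone (Ideal.span {f}) := by
  have hp := (brg_irr hf hd hN ns).prime
  refine ⟨(Ideal.span_singleton_prime hp.ne_zero).2 hp, fun Φ hΦ m => ?_⟩
  let := MvPolynomial.gradedAlgebra (σ := Fin (N + 1)) (R := k)
  refine MvPolynomial.homogeneousComponent_mem_of_mem (Ideal.homogeneous_span _ _ ?_) hΦ m
  rintro _ rfl
  exact ⟨d, hf⟩

/-- One Newton step. -/
theorem brg_smooth {f : Pk k N} (ns : NS f) (i : Fin (N + 1)) : Algebra.Smooth k
    (Localization.Away (Ideal.Quotient.mk (Ideal.span {f}) (MvPolynomial.X i))) := by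
  have fp : Algebra.FinitePresentation k (Pk k N ⧸ Ideal.span {f}) :=
    Algebra.FinitePresentation.quotient (Submodule.fg_span_singleton f)
  refine ⟨Algebra.FormallySmooth.of_comp_surjective fun B _ _ J hJ φ => ?_, inferInstance⟩
  let θ : Pk k N →ₐ[k] B ⧸ J := φ.comp ((IsScalarTower.toAlgHom k (Pk k N ⧸ Ideal.span {f}) _).comp
    (Ideal.Quotient.mkₐ k (Ideal.span {f})))
  have hθ : ∀ z : V B N, (∀ a, Ideal.Quotient.mk J (z a) = θ (MvPolynomial.X a)) →
      (Ideal.Quotient.mkₐ k J).comp (MvPolynomial.aeval z) = θ := fun z hz =>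
    MvPolynomial.algHom_ext fun a => by simpa using hz a
  have hu : ∀ z : V B N, (∀ a, Ideal.Quotient.mk J (z a) = θ (MvPolynomial.X a)) →
      IsUnit (z i) := fun z hz => by
    refine (IsNilpotent.isUnit_quotient_mk_iff (I := J) ⟨2, hJ⟩).1 ?_
    rw [hz]
    exact (IsLocalization.Away.algebraMap_isUnit
      (Ideal.Quotient.mk (Ideal.span {f}) (MvPolynomial.X i))).map φ
  choose c hc using fun a => Ideal.Quotient.mk_surjective (θ (MvPolynomial.X a))
  have hf0 : θ f = 0 := by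
    have : Ideal.Quotient.mkₐ k (Ideal.span {f}) f = 0 :=
      Ideal.Quotient.eq_zero_iff_mem.2 (Ideal.mem_span_singleton_self f)
    simp only [θ, AlgHom.comp_apply, this, map_zero]
  have hfc : MvPolynomial.aeval c f ∈ J :=
    Ideal.Quotient.eq_zero_iff_mem.1 ((AlgHom.congr_fun (hθ c hc) f).trans hf0)
  have hsq : MvPolynomial.aeval c f ^ 2 = 0 := by
    have := Ideal.pow_mem_pow hfc 2
    rwa [hJ] at this
  obtain ⟨m, hm⟩ := ns i
  obtain ⟨u, hA⟩ := Ideal.mem_span_range_iff_exists_fun.1 hm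
  obtain ⟨r, hr⟩ := ((hu c hc).pow m).exists_right_inv
  have h1 := congrArg (MvPolynomial.aeval c) hA
  simp only [map_sum, map_mul, map_pow, MvPolynomial.aeval_X] at h1
  let w : V B N := fun a => -(MvPolynomial.aeval c (u a) * r)
  have h2 : ∑ a, MvPolynomial.aeval c (MvPolynomial.pderiv a f) * w a = -1 := by
    rw [← hr, ← h1, Finset.sum_mul, ← Finset.sum_neg_distrib]
    exact Finset.sum_congr rfl fun a _ => by ring
  have h3 := taylor_dvd c w (MvPolynomial.aeval c f) f
  rw [hsq, zero_dvd_iff, h2] at h3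
  have h4 : MvPolynomial.aeval (c + MvPolynomial.aeval c f • w) f = 0 := by linear_combination h3
  have h5 : ∀ a, Ideal.Quotient.mk J ((c + MvPolynomial.aeval c f • w) a) =
      θ (MvPolynomial.X a) := fun a => by
    rw [Pi.add_apply, Pi.smul_apply, smul_eq_mul, map_add, map_mul,
      Ideal.Quotient.eq_zero_iff_mem.2 hfc, zero_mul, add_zero, hc]
  let ψ : (Pk k N ⧸ Ideal.span {f}) →ₐ[k] B :=
    Ideal.Quotient.liftₐ _ (MvPolynomial.aeval (c + MvPolynomial.aeval c f • w)) (brg_on.2 h4)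
  have hψ : ∀ Φ, ψ (Ideal.Quotient.mk (Ideal.span {f}) Φ) =
      MvPolynomial.aeval (c + MvPolynomial.aeval c f • w) Φ := fun Φ => rfl
  have h6 : IsUnit (ψ (Ideal.Quotient.mk (Ideal.span {f}) (MvPolynomial.X i))) := by
    rw [hψ, MvPolynomial.aeval_X]
    exact hu _ h5
  refine ⟨IsLocalization.Away.liftAlgHom _ h6, AlgHom.coe_ringHom_injective
    (IsLocalization.ringHom_ext (Submonoid.powers
      (Ideal.Quotient.mk (Ideal.span {f}) (MvPolynomial.X i))) (Ideal.Quotient.ringHom_ext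
        (RingHom.ext fun Φ => ?_)))⟩
  exact (congrArg (Ideal.Quotient.mk J) ((IsLocalization.Away.lift_eq _ h6 _).trans (hψ Φ))).trans
    (AlgHom.congr_fun (hθ _ h5) Φ)

theorem brg_var {f : Pk k N} (hf : f.IsHomogeneous d) (hd : d ≠ 0) (hN : 2 ≤ N) (ns : NS f) :
    SmoothVar (Ideal.span {f}) :=
  ⟨brg_cone hf hd hN ns, brg_smooth ns⟩

theorem brg_dim {f : Pk k (n + 1)} (ns : NS f) : Dim (Ideal.span {f}) n k := by
  intro x hx h0
  obtain ⟨i, hi⟩ := Function.ne_iff.1 hx
  obtain ⟨a, ha⟩ := ns.ne hi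
  let L : V k (n + 1) →ₗ[k] k :=
    Fintype.linearCombination k fun i => MvPolynomial.aeval x (MvPolynomial.pderiv i f)
  have e : tsp (Ideal.span {f}) x = LinearMap.ker L := by
    ext v
    rw [mem_tsp, brg_tg h0, LinearMap.mem_ker, Fintype.linearCombination_apply]
    simp only [smul_eq_mul, mul_comm]
  have hL : L ≠ 0 := fun h => ha (by simpa [L] using LinearMap.congr_fun h (Pi.single a 1))
  have := Module.Dual.finrank_ker_add_one_of_ne_zero hL
  rw [Module.finrank_fin_fun] at this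
  rw [e]
  exact Nat.succ_injective this

end

end Pool.Agent.Lib.MP_41050a_ag.DJ
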