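import Pool.Agent.Lib.MP_41050a_ag.DJ.D

/-! The dimension of the space of lines. -/

namespace Pool.Agent.Lib.MP_41050a_ag.DJ

open Polynomial NK Module

set_option linter.unusedSectionVars false

noncomputable section

variable {k : Type} [Field k] [IsAlgClosed k] [CharZero k] {N d : ℕ}
  {Λ : Type} [Field Λ] [Algebra k Λ] {f : Pk k N}

theorem exists_ext (k Λ : Type) [Field k] [Field Λ] [Algebra k Λ] (n : ℕ) :
    ∃ (K : Type) (_ : Field K) (_ : Algebra k K) (_ : Algebra Λ K) (_ : IsScalarTower k Λ K)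
      (a : Fin n → K), AlgebraicIndependent Λ a :=
  ⟨FractionRing (MvPolynomial (Fin n) Λ), inferInstance, inferInstance, inferInstance,
    inferInstance, _, (MvPolynomial.algebraicIndependent_X (Fin n) Λ).map'
      (f := IsScalarTower.toAlgHom Λ (MvPolynomial (Fin n) Λ) _) (IsFractionRing.injective _ _)⟩

theorem ln_map {K : Type} [Field K] [Algebra k K] (φ : Λ →ₐ[k] K) {p q : V Λ N}
    (h : MvPolynomial.aeval (ln p q) f = 0) : MvPolynomial.aeval (ln (φ ∘ p) (φ ∘ q)) f = 0 := by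
  have := map_aev_poly φ (ln p q) f
  rw [h, Polynomial.map_zero] at this
  rw [this]
  congr 2
  funext i
  simp [ln]

theorem ln_scale (hf : f.IsHomogeneous d) {p q : V Λ N} (h : MvPolynomial.aeval (ln p q) f = 0)
    {s : Λ} (hs : s ≠ 0) (s' : Λ) : MvPolynomial.aeval (ln (s • p) (s' • q)) f = 0 := by
  have h1 := ln_comp p q (s' / s) f
  rw [h, zero_comp] at h1
  have h2 := aev_smul hf (C s) (ln p fun i => s' / s * q i)
  rw [← h1, mul_zero] at h2
  rw [← h2]
  congr 2
  funext i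
  simp only [ln, Pi.smul_apply, smul_eq_mul, mul_add, mul_left_comm (C s) X, ← C_mul]
  rw [← mul_assoc, mul_div_cancel₀ _ hs]

theorem ind_sum {K : Type} [Field K] [Algebra k K] [Algebra Λ K] [IsScalarTower k Λ K] {n c : ℕ}
    {a : Fin n → K} (ha : AlgebraicIndependent Λ a) {t : Fin c → Λ}
    (ht : AlgebraicIndependent k t) {S : Set K} (h1 : ∀ j, a j ∈ S)
    (h2 : ∀ l, algebraMap Λ K (t l) ∈ S) : Ind k S (n + c) :=
  ⟨_, (ht.sumElim_comp ha).comp _ finSumFinEquiv.symm.injective, fun l => by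
    rcases h : finSumFinEquiv.symm l with j | j
    · simpa [h] using h1 j
    · simpa [h] using h2 j⟩

/-- The space of pairs of vectors spanning a subspace of the cone. -/
theorem line (hf : f.IsHomogeneous d) (ns : NS f) {m : ℤ} (m1 : (N : ℤ) ≤ m)
    (m2 : 2 * (N : ℤ) - d ≤ m) {p q : V Λ N} (h : MvPolynomial.aeval (ln p q) f = 0) {c : ℕ}
    (hc : Ind k (IntermediateField.adjoin k (Set.range p ∪ Set.range q) : Set Λ) c) :
    (c : ℤ) ≤ m + 1 := by
  by_contra hlt
  by_cases h0 : p = 0 ∧ q = 0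
  · refine hc.not_cod le_rfl ((cod_zero ?_).mono (by omega))
    rintro D - _ (⟨i, rfl⟩ | ⟨i, rfl⟩) <;> simp [h0.1, h0.2]
  obtain ⟨t, ht, ht'⟩ := hc
  obtain ⟨K, _, _, _, _, a, ha⟩ := exists_ext k Λ 4
  let φ := IsScalarTower.toAlgHom k Λ K
  have inj : Function.Injective (MvPolynomial.aeval a : MvPolynomial (Fin 4) Λ →ₐ[Λ] K) := ha
  let y : V K N := fun i => a 0 * φ (p i) + a 1 * φ (q i)
  let u : V K N := fun i => a 2 * φ (p i) + a 3 * φ (q i)
  let w : V (MvPolynomial (Fin 4) Λ) N := fun i =>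
    MvPolynomial.X 0 * MvPolynomial.C (p i) + MvPolynomial.X 1 * MvPolynomial.C (q i)
  have hw : (MvPolynomial.aeval a).restrictScalars k ∘ w = y := funext fun i => by simp [w, y, φ]
  obtain ⟨i₀, hy⟩ : ∃ i, y i ≠ 0 := by
    by_contra hy
    simp only [not_exists, not_not] at hy
    have h1 : ∀ i, w i = 0 := fun i => inj ((congrFun hw i).trans ((hy i).trans (map_zero _).symm))
    refine h0 ⟨funext fun i => ?_, funext fun i => ?_⟩
    · simpa [w] using congrArg (MvPolynomial.eval ![1, 0, 0, 0]) (h1 i)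
    · simpa [w] using congrArg (MvPolynomial.eval ![0, 1, 0, 0]) (h1 i)
  have hΔ : a 0 * a 3 - a 1 * a 2 ≠ 0 := fun e => by
    have h1 : (MvPolynomial.X 0 * MvPolynomial.X 3 - MvPolynomial.X 1 * MvPolynomial.X 2 :
        MvPolynomial (Fin 4) Λ) = 0 := inj (by simpa using e)
    simpa using congrArg (MvPolynomial.eval ![1, 0, 0, 1]) h1
  have ha0 : a 0 ≠ 0 := ha.ne_zero 0
  let l := u i₀ / y i₀
  let v : V K N := fun i => u i - l * y i
  have hf0 : MvPolynomial.aeval y f = 0 := by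
    have h1 := congrArg (eval 1) (ln_scale hf (ln_map φ h) ha0 (a 1))
    simpa [ln_eval] using h1
  have h1 := core hf ns (y := y) (v := v) hy (by simp [v, l, hy]) hf0 (fun Φ hΦ => by
    have h2 : MvPolynomial.aeval w Φ = 0 := inj (by
      rw [map_zero]
      exact (map_aev ((MvPolynomial.aeval a).restrictScalars k) w Φ).trans (hw ▸ hΦ))
    have h3 := map_aev ((MvPolynomial.aeval (![C (C (a 0)) * X + C (X * C (a 2 - l * a 0)),
      C (C (a 1)) * X + C (X * C (a 3 - l * a 1)), 0, 0] : Fin 4 → K[X][X]) :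
        MvPolynomial (Fin 4) Λ →ₐ[Λ] K[X][X]).restrictScalars k) w Φ
    rw [h2, map_zero] at h3
    rw [h3]
    congr 2
    funext i
    simp [w, y, v, u, φ, Polynomial.algebraMap_apply]
    ring) m1 m2
  let S : Set K := Set.range y ∪ Set.range v ∪ ({l} ∪ Set.range a)
  have h2 : Cod ⊤ (Ann k S) (m + (1 + 4)) := by
    have h3 := cod_sum (U := ⊤) Finset.univ (fun j => Ann k {a j}) (fun _ => 1)
      fun j _ => cod_one _ _
    rw [ann_union, ann_union {l}]
    refine h1.step ((cod_one ⊤ l).step (h3.weak le_rfl ?_) le_top) le_top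
    rintro D ⟨-, hD⟩ _ ⟨j, rfl⟩
    exact (Submodule.mem_iInf _).1 ((Submodule.mem_iInf _).1 hD j) (Finset.mem_univ _) _ rfl
  have sa : ∀ j, a j ∈ IntermediateField.adjoin k S := fun j =>
    IntermediateField.subset_adjoin k S (Or.inr (Or.inr ⟨j, rfl⟩))
  have sy : ∀ i, y i ∈ IntermediateField.adjoin k S := fun i =>
    IntermediateField.subset_adjoin k S (Or.inl (Or.inl ⟨i, rfl⟩))
  have su : ∀ i, u i ∈ IntermediateField.adjoin k S := fun i => by
    rw [show u i = v i + l * y i from (sub_add_cancel _ _).symm]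
    exact add_mem (IntermediateField.subset_adjoin k S (Or.inl (Or.inr ⟨i, rfl⟩)))
      (mul_mem (IntermediateField.subset_adjoin k S (Or.inr (Or.inl rfl))) (sy i))
  have h4 : IntermediateField.adjoin k (Set.range p ∪ Set.range q) ≤
      (IntermediateField.adjoin k S).comap φ := IntermediateField.adjoin_le_iff.2 (by
    rintro _ (⟨i, rfl⟩ | ⟨i, rfl⟩)
    · change φ (p i) ∈ IntermediateField.adjoin k S
      rw [show φ (p i) = (a 3 * y i - a 1 * u i) / (a 0 * a 3 - a 1 * a 2) by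
        rw [eq_div_iff hΔ]
        ring]
      exact div_mem (sub_mem (mul_mem (sa _) (sy _)) (mul_mem (sa _) (su _)))
        (sub_mem (mul_mem (sa _) (sa _)) (mul_mem (sa _) (sa _)))
    · change φ (q i) ∈ IntermediateField.adjoin k S
      rw [show φ (q i) = (a 0 * u i - a 2 * y i) / (a 0 * a 3 - a 1 * a 2) by
        rw [eq_div_iff hΔ]
        ring]
      exact div_mem (sub_mem (mul_mem (sa _) (su _)) (mul_mem (sa _) (sy _)))
        (sub_mem (mul_mem (sa _) (sa _)) (mul_mem (sa _) (sa _))))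
  refine (ind_sum ha ht (S := IntermediateField.adjoin k S) sa fun l => h4 (ht' l)).not_cod le_rfl
    (h2.mono ?_)
  push_cast
  omega

theorem neck_le (hf : f.IsHomogeneous d) (ns : NS f) {m : ℤ} (m1 : (N : ℤ) ≤ m)
    (m2 : 2 * (N : ℤ) - d ≤ m) {p q : V Λ N} (hp : p ≠ 0) (hq : q ≠ 0)
    (h : MvPolynomial.aeval (ln p q) f = 0) {c : ℕ} (hc : Ind k (rat p ∪ rat q) c) :
    (c : ℤ) + 1 ≤ m := by
  obtain ⟨t, ht, ht'⟩ := hc
  obtain ⟨K, _, _, _, _, a, ha⟩ := exists_ext k Λ 2
  let φ := IsScalarTower.toAlgHom k Λ K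
  obtain ⟨i, hi⟩ := Function.ne_iff.1 hp
  obtain ⟨j, hj⟩ := Function.ne_iff.1 hq
  have hi' : φ (p i) ≠ 0 := (map_ne_zero φ).2 hi
  have hj' : φ (q j) ≠ 0 := (map_ne_zero φ).2 hj
  have s0 := div_ne_zero (ha.ne_zero 0) hi'
  have s1 := div_ne_zero (ha.ne_zero 1) hj'
  set S := Set.range ((a 0 / φ (p i)) • φ ∘ p) ∪ Set.range ((a 1 / φ (q j)) • φ ∘ q)
  have sp : ∀ b, a 0 / φ (p i) * φ (p b) ∈ IntermediateField.adjoin k S := fun b =>
    IntermediateField.subset_adjoin k S (Or.inl ⟨b, rfl⟩)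
  have sq : ∀ b, a 1 / φ (q j) * φ (q b) ∈ IntermediateField.adjoin k S := fun b =>
    IntermediateField.subset_adjoin k S (Or.inr ⟨b, rfl⟩)
  have := line hf ns m1 m2 (ln_scale hf (ln_map φ h) s0 (a 1 / φ (q j)))
    (ind_sum ha ht (S := IntermediateField.adjoin k S)
      (Fin.forall_fin_two.2 ⟨by simpa [hi'] using sp i, by simpa [hj'] using sq j⟩) fun l => by
      obtain ⟨b, b', e⟩ | ⟨b, b', e⟩ := ht' l
      · have := div_mem (sp b) (sp b')
        rwa [mul_div_mul_left _ _ s0, ← map_div₀, ← e] at this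
      · have := div_mem (sq b) (sq b')
        rwa [mul_div_mul_left _ _ s1, ← map_div₀, ← e] at this)
  push_cast at this
  omega

theorem no_neck (hf : f.IsHomogeneous d) (ns : NS f) (hd : d ≤ N) {p q : V Λ N} (hp : p ≠ 0)
    (hq : q ≠ 0) (h : MvPolynomial.aeval (ln p q) f = 0) :
    ¬Ind k (rat p ∪ rat q) (2 * N - d) := fun hc => by
  have := neck_le hf ns (m := 2 * N - d) (by omega) le_rfl hp hq h hc
  omega

theorem ns_of (hf : f.IsHomogeneous d) (hd : d ≠ 0)
    (hs : ∀ x : Fin (N + 1) → k, MvPolynomial.aeval x f = 0 →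
      (∀ i, MvPolynomial.aeval x (MvPolynomial.pderiv i f) = 0) → x = 0) : NS f := fun i => by
  rw [← Ideal.mem_radical_iff, ← MvPolynomial.vanishingIdeal_zeroLocus_eq_radical (K := k)]
  intro x hx
  have h1 : ∀ j, MvPolynomial.aeval x (MvPolynomial.pderiv j f) = 0 := fun j =>
    hx _ (Ideal.subset_span ⟨j, rfl⟩)
  have h2 := congrArg (MvPolynomial.aeval x) hf.sum_X_mul_pderiv
  simp only [map_sum, map_mul, h1, mul_zero, Finset.sum_const_zero, nsmul_eq_mul,
    map_natCast] at h2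
  rw [hs x ((mul_eq_zero.1 h2.symm).resolve_left (Nat.cast_ne_zero.2 hd)) h1]
  simp

end

end Pool.Agent.Lib.MP_41050a_ag.DJ
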