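import Pool.Agent.Lib.MP_41050a_ag.DJ.Brg2
import Pool.Agent.Lib.MP_41050a_ag.DJ.E

/-! Movable bend and break for hypersurfaces of index larger than a third of the dimension. -/

namespace Pool.Agent.Lib.MP_41050a_ag.DJ

theorem third {k : Type} [Field k] [IsAlgClosed k] [CharZero k] {N d e : ℕ} {f : Pk k N}
    (h2 : 2 ≤ d) (h3 : 3 * d ≤ 2 * N + 3) (hf : f.IsHomogeneous d)
    (hs : ∀ x : Fin (N + 1) → k, MvPolynomial.aeval x f = 0 →
      (∀ i, MvPolynomial.aeval x (MvPolynomial.pderiv i f) = 0) → x = 0)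
    (he : N + 1 ≤ e * (N + 1 - d)) {P : Ideal (MvPolynomial (Fin (N + 1) × Fin (e + 1)) k)}
    (hP : P ∈ (eqs (Ideal.span {f}) e).minimalPrimes) (hg : GenFree (Ideal.span {f}) e P) :
    NK.BreaksN (Ideal.span {f}) e P :=
  have ns := ns_of hf (by omega) hs
  bridge hf h2 h3 ns (fun _ _ _ _ _ hp hq h => no_neck hf ns (by omega) hp hq h) hP hg he

end Pool.Agent.Lib.MP_41050a_ag.DJ
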